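import Pool.Agent.H69.LQ.Lib
import Pool.Agent.H69.LQ.Targets1
import Pool.Agent.H78.LQ.JS

set_option autoImplicit false
set_option linter.unusedVariables false

open MeasureTheory Metric Set
open scoped ENNReal
open Pool.Agent.H85.LK (E adm lam Ann)
open Pool.Agent.H69.LQ

namespace Pool.Agent.H34.LQ1

theorem h1_inner {N : ℕ} (i : Fin N) (x : E N) : inner ℝ (ee i) x = x i := by
  unfold ee
  rw [EuclideanSpace.inner_single_left]
  simp

theorem h1_ph {N : ℕ} (L r : ℝ) : ph N L 1 r = r * J ((N : ℝ) / 2 + 1) (L * r ^ 2 / 4) := by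
  unfold ph
  rw [pow_one, Nat.cast_one]

theorem h1_sum {N : ℕ} (L : ℝ) (x : E N) : ∑ i, gT L (ee i) x ^ 2 = ph N L 1 ‖x‖ ^ 2 := by
  rw [h1_ph, mul_pow, EuclideanSpace.real_norm_sq_eq, Finset.sum_mul]
  refine Finset.sum_congr rfl fun i _ => ?_
  unfold gT
  rw [h1_inner, mul_pow, EuclideanSpace.real_norm_sq_eq]

theorem h1_low (hPV : T_PV) {N : ℕ} {L r₀ a : ℝ} (hN : 2 ≤ N) (hL : Fz N L) (hr : 0 < r₀)
    (ha : a < 1) : ∃ m : ℝ, 0 < m ∧ ∀ r, r₀ ≤ r → r ≤ a → m ≤ ph N L 1 r := by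
  have hc : Continuous (ph N L 1) := by
    have h1 := (Pool.Agent.H78.LQ.pf_JS ((N : ℝ) / 2 + 1) (by positivity)).1.continuous
    have h2 : ph N L 1 = fun r => r * J ((N : ℝ) / 2 + 1) (L * r ^ 2 / 4) := by
      funext r
      exact h1_ph L r
    rw [h2]
    exact continuous_id.mul (h1.comp (by fun_prop))
  obtain ⟨m, hm, h⟩ := (isCompact_Icc (a := r₀) (b := a)).exists_forall_le' (f := ph N L 1)
    (a := 0) hc.continuousOn (fun r hr' => (hPV N L hN hL).1 r (lt_of_lt_of_le hr hr'.1)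
      (lt_of_le_of_lt hr'.2 ha))
  exact ⟨m, hm, fun r h1 h2 => h r ⟨h1, h2⟩⟩

theorem h1_HH {N : ℕ} (a : ℝ) (w : E N → ℝ) : 0 ≤ HH a w :=
  integral_nonneg fun x => add_nonneg (sq_nonneg _) (sq_nonneg _)

theorem pf_H1 (hPV : T_PV) (hHS : T_HS) : T_H1 := by
  intro N L r₀ a τ A t hN hL hr ha hτ hA ht
  obtain ⟨m₁, hm₁, hlow⟩ := h1_low hPV hN hL hr ha
  have hN0 : (0 : ℝ) < N := by
    have : 0 < N := by omega
    exact_mod_cast this
  set m : ℝ := m₁ / Real.sqrt N with hm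
  have hsq : 0 < Real.sqrt N := Real.sqrt_pos.2 hN0
  have hm0 : 0 < m := by positivity
  have hmsq : (N : ℝ) * m ^ 2 = m₁ ^ 2 := by
    rw [hm, div_pow, Real.sq_sqrt hN0.le]
    field_simp
  obtain ⟨κ, hκ, hS⟩ := hHS N m a τ A t hN hm0 hτ hA ht
  refine ⟨κ, hκ, ?_⟩
  intro K w hK hKs hKv hw
  have hcov : ∀ x ∈ K, ∃ i, m ≤ |w i x| := by
    intro x hx
    by_contra hcon
    push Not at hcon
    have h1 : ∑ i, w i x ^ 2 = ph N L 1 ‖x‖ ^ 2 := by
      rw [← h1_sum]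
      refine Finset.sum_congr rfl fun i _ => ?_
      rw [(hw i).2 x hx, neg_sq]
    have h2 : ∑ i, w i x ^ 2 < ∑ i : Fin N, m ^ 2 := by
      have hne : (Finset.univ : Finset (Fin N)).Nonempty := ⟨⟨0, by omega⟩, Finset.mem_univ _⟩
      refine Finset.sum_lt_sum_of_nonempty hne fun i _ => ?_
      exact sq_lt_sq' (by linarith [(abs_lt.1 (hcon i)).1]) (abs_lt.1 (hcon i)).2
    rw [Finset.sum_const, Finset.card_univ, Fintype.card_fin, nsmul_eq_mul, hmsq, h1] at h2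
    have hxK := hKs hx
    have h3 : r₀ ≤ ‖x‖ := by
      have h4 := hxK.2
      rw [mem_ball_zero_iff, not_lt] at h4
      exact h4
    have h5 : ‖x‖ ≤ a := by
      have h4 := hxK.1
      rw [mem_ball_zero_iff] at h4
      linarith
    have h6 := hlow ‖x‖ h3 h5
    have h7 : m₁ ^ 2 ≤ ph N L 1 ‖x‖ ^ 2 := by gcongr
    linarith
  have hKi : ∀ i, MeasurableSet (K ∩ {x | m ≤ |w i x|}) := fun i =>
    hK.inter (measurableSet_le measurable_const ((hw i).1.continuous.measurable.abs))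
  have hi : ∀ i, A * volume.real (K ∩ {x | m ≤ |w i x|}) ≤ t * HH a (w i) := by
    intro i
    refine hS _ (w i) (hKi i) ?_ ?_ (hw i).1 fun x hx => hx.2
    · intro x hx
      exact (hKs hx.1).1
    · exact (measure_mono inter_subset_left).trans hKv
  have hU : K ⊆ ⋃ i, K ∩ {x | m ≤ |w i x|} := by
    intro x hx
    obtain ⟨i, hi⟩ := hcov x hx
    exact mem_iUnion.2 ⟨i, hx, hi⟩
  have hfin : volume (⋃ i, K ∩ {x | m ≤ |w i x|}) ≠ ⊤ := by
    have h1 : (⋃ i, K ∩ {x | m ≤ |w i x|}) ⊆ K := iUnion_subset fun i => inter_subset_left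
    have h2 := (measure_mono (μ := volume) h1).trans hKv
    exact ne_top_of_le_ne_top ENNReal.ofReal_ne_top h2
  have h1 : volume.real K ≤ ∑ i, volume.real (K ∩ {x | m ≤ |w i x|}) :=
    (measureReal_mono hU hfin).trans (measureReal_iUnion_fintype_le _)
  calc A * volume.real K ≤ A * ∑ i, volume.real (K ∩ {x | m ≤ |w i x|}) := by gcongr
    _ = ∑ i, A * volume.real (K ∩ {x | m ≤ |w i x|}) := Finset.mul_sum _ _ _
    _ ≤ ∑ i, t * HH a (w i) := Finset.sum_le_sum fun i _ => hi i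
    _ = t * ∑ i, HH a (w i) := (Finset.mul_sum _ _ _).symm

end Pool.Agent.H34.LQ1
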